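import Mathlib
import Pool.Agent.Q72.Nuc.NoCut
import Pool.Agent.Q72.Nuc.Fun

/-!
# MP_60ed70_an: the nucleus of a compact set can be strictly larger than its core

`M = ℙ¹ × ℂ` with coordinates `(x, v)`, and `K = {|v| = 1} ∪ {x = 0, |v| ≤ 1}`, a closed disc
attached to `ℙ¹ × S¹`.  Spherical cuts do not change `K`, so its nucleus is `K`; but
`φ = |v|² + ε |x|² ψ(v)²`, `ψ` a cutoff function, is smooth and plurisubharmonic near `K` and
strictly plurisubharmonic at `(0, 0) ∈ K`.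
-/

set_option autoImplicit false

open Set Filter Topology Metric
open scoped Manifold ContDiff

namespace Pool.Agent.Results.MP_60ed70_an.NucleusNotCore

open Q72.Nuc Pool.Agent.H194R3.Cartan

open Classical in
/-- the function -/
noncomputable def phi (ε : ℝ) (q : MM) : ℝ :=
  if px q = P1.inf then ‖pv q‖ ^ 2 else FF ε (P1.chartZero (px q), pv q)

/-- the neighbourhood of `KK` -/
def NN : Set MM := {q | 3 / 4 < ‖pv q‖} ∪ {q | px q ∈ P1.coe '' ball 0 1}

lemma isOpen_NN : IsOpen NN := by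
  apply IsOpen.union
  · exact isOpen_lt continuous_const continuous_pv.norm
  · exact (P1.isOpenEmbedding_coe.isOpenMap _ isOpen_ball).preimage continuous_px

lemma KK_subset : KK ⊆ NN := by
  rintro q (h | h)
  · left
    change 3 / 4 < ‖pv q‖
    rw [h]; norm_num
  · right
    exact ⟨0, by simp, h.1.symm⟩

/-- the chart `(x, v) ↦ (x, v)` of `MM` -/
noncomputable def ch0 : OpenPartialHomeomorph MM (ℂ × ℂ) :=
  (P1.chartZero.prod (OpenPartialHomeomorph.refl ℂ) : OpenPartialHomeomorph (P1 × ℂ) (ℂ × ℂ))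

/-- the chart `(x, v) ↦ (1 / x, v)` of `MM` -/
noncomputable def ch1 : OpenPartialHomeomorph MM (ℂ × ℂ) :=
  (P1.chartInf.prod (OpenPartialHomeomorph.refl ℂ) : OpenPartialHomeomorph (P1 × ℂ) (ℂ × ℂ))

lemma ch0_apply (q : MM) : ch0 q = (P1.chartZero (px q), pv q) := rfl
lemma ch1_apply (q : MM) : ch1 q = (P1.chartInf (px q), pv q) := rfl
lemma px_ch0_symm (p : ℂ × ℂ) : px (ch0.symm p) = P1.coe p.1 := P1.chartZero_symm p.1
lemma pv_ch0_symm (p : ℂ × ℂ) : pv (ch0.symm p) = p.2 := rfl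
lemma px_ch1_symm (p : ℂ × ℂ) : px (ch1.symm p) = P1.inversion (P1.coe p.1) :=
  P1.chartInf_symm p.1
lemma pv_ch1_symm (p : ℂ × ℂ) : pv (ch1.symm p) = p.2 := rfl

lemma chartAt_P1_coe (z : ℂ) : chartAt ℂ (P1.coe z) = P1.chartZero :=
  if_neg (P1.coe_ne_inf z)

lemma chartAt_P1_inf : chartAt ℂ P1.inf = P1.chartInf := if_pos rfl

lemma chart_coe {q : MM} {z : ℂ} (h : px q = P1.coe z) : chartAt (ℂ × ℂ) q = ch0 := by
  rw [chartAt_eq, h, chartAt_P1_coe]
  rfl

lemma chart_inf {q : MM} (h : px q = P1.inf) : chartAt (ℂ × ℂ) q = ch1 := by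
  rw [chartAt_eq, h, chartAt_P1_inf]
  rfl

lemma phi_comp_zero (ε : ℝ) : phi ε ∘ ch0.symm = FF ε := by
  ext p
  rw [Function.comp_apply, phi, px_ch0_symm, pv_ch0_symm, if_neg (P1.coe_ne_inf _),
    P1.chartZero_coe]

lemma phi_comp_inf (ε : ℝ) {p : ℂ × ℂ} (hp : 3 / 4 < ‖p.2‖) :
    phi ε ∘ ch1.symm =ᶠ[𝓝 p] FF 0 := by
  have hop : IsOpen {p : ℂ × ℂ | 3 / 4 < ‖p.2‖} := isOpen_lt continuous_const
    continuous_snd.norm
  filter_upwards [hop.mem_nhds hp] with p' hp'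
  have hp'' : 3 / 4 < ‖p'.2‖ := hp'
  rw [Function.comp_apply, phi, px_ch1_symm, pv_ch1_symm]
  split_ifs with h3
  · simp [FF]
  · simp [FF, psi_eq_zero (by linarith : (7 : ℝ) / 10 ≤ ‖p'.2‖)]

theorem psh {C1 C2 : ℝ} (hC1 : ∀ v, ‖fderiv ℝ psi v‖ ≤ C1)
    (hC2 : ∀ v, ‖fderiv ℝ (fderiv ℝ psi) v‖ ≤ C2) {ε : ℝ} (hε : 0 ≤ ε)
    (hε1 : ε * (C1 ^ 2 + C2) ≤ 1) {q : MM} (hq : q ∈ NN) : PSHAt (ℂ × ℂ) (phi ε) q := by
  rcases P1.cases (px q) with h | ⟨z, h⟩
  · -- at infinity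
    have hv : 3 / 4 < ‖pv q‖ := by
      rcases hq with h1 | ⟨z, _, h1⟩
      · exact h1
      · exfalso
        rw [h] at h1
        exact P1.coe_ne_inf z h1
    unfold PSHAt
    rw [chart_inf h]
    have hp : 3 / 4 < ‖(ch1 q).2‖ := hv
    have hev := phi_comp_inf ε hp
    constructor
    · exact ((contDiff_FF 0).contDiffAt).congr_of_eventuallyEq hev
    · intro ξ
      rw [levi_congr hev]
      exact levi_zero_nonneg _ _ _ _
  · unfold PSHAt
    rw [chart_coe h, phi_comp_zero]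
    refine ⟨(contDiff_FF ε).contDiffAt, fun ξ => ?_⟩
    rw [ch0_apply, h, P1.chartZero_coe]
    rcases hq with h2 | ⟨z', hz', h2⟩
    · have h3 : FF ε =ᶠ[𝓝 (z, pv q)] FF 0 := by
        have hop : IsOpen {p : ℂ × ℂ | 3 / 4 < ‖p.2‖} := isOpen_lt continuous_const
          continuous_snd.norm
        filter_upwards [hop.mem_nhds (show ((z, pv q) : ℂ × ℂ) ∈ _ from h2)] with p' hp'
        have hp'' : 3 / 4 < ‖p'.2‖ := hp'
        simp [FF, psi_eq_zero (by linarith : (7 : ℝ) / 10 ≤ ‖p'.2‖)]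
      rw [levi_congr h3]
      exact levi_zero_nonneg _ _ _ _
    · have h3 : z' = z := by
        have := P1.isOpenEmbedding_coe.injective (h2.trans h)
        exact this
      rw [h3, mem_ball_zero_iff] at hz'
      exact levi_nonneg hC1 hC2 hε hε1 hz'.le _ _ _

/-- the point `(0, 0)` -/
def origin : MM := (P1.coe 0, (0 : ℂ))

theorem strict {ε : ℝ} (hε : 0 < ε) : StrictAt (ℂ × ℂ) (phi ε) origin := by
  have h : px origin = P1.coe 0 := rfl
  unfold StrictAt
  rw [chart_coe h, phi_comp_zero]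
  have h1 : ch0 origin = (0, 0) := by
    rw [ch0_apply, h, P1.chartZero_coe]
    rfl
  rw [h1]
  rintro ⟨a, b⟩ hab
  have h2 := levi_FF ε 0 0 a b
  rw [psi_zero] at h2
  have h3 : 0 < 4 * levi (FF ε) (0, 0) (a, b) := by
    rw [h2]
    simp only [Complex.zero_re, Complex.zero_im, zero_mul, sub_zero, add_zero, norm_zero, mul_zero,
      ne_eq, OfNat.ofNat_ne_zero, not_false_eq_true, zero_pow, one_pow, mul_one]
    by_cases hb : b = 0
    · have ha : a ≠ 0 := by
        rintro rfl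
        exact hab (by rw [hb]; rfl)
      have : 0 < ‖a‖ := norm_pos_iff.2 ha
      rw [hb, norm_zero]
      positivity
    · have : 0 < ‖b‖ := norm_pos_iff.2 hb
      positivity
  linarith

lemma cut_trivial {K' : Set MM} (h : IsCut (V := ℂ × ℂ) 1 KK K') : K' = KK := by
  obtain ⟨_, _, r, hr0, hr1, U, Φ, hΦ, hcap, rfl⟩ := h
  have hcap' : ∀ q ∈ cap 1 r, Φ q ∉ KK := by
    intro q hq hK
    have : Φ q ∈ Φ '' cap 1 r ∩ KK := ⟨mem_image_of_mem Φ hq, hK⟩
    rw [hcap] at this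
    exact this
  have key := no_cut hr0 hr1 hΦ hcap'
  ext y
  constructor
  · exact fun h => h.1
  · intro hy
    refine ⟨hy, ?_⟩
    rintro ⟨q, hq, rfl⟩
    exact key q (interior_subset hq) hy

lemma chain_trivial {K' : Set MM} (h : Relation.ReflTransGen (IsCut (V := ℂ × ℂ) 1) KK K') :
    K' = KK := by
  induction h with
  | refl => rfl
  | tail _ hbc ih =>
    rw [ih] at hbc
    exact cut_trivial hbc

theorem nucleus_KK : nucleus (ℂ × ℂ) 1 KK = KK := by
  apply Subset.antisymm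
  · intro q hq
    exact hq KK ⟨isCompact_KK, Relation.ReflTransGen.refl⟩
  · rintro q hq K' ⟨_, hK'⟩
    rw [chain_trivial hK']
    exact hq

/-- There are a complex manifold `M` of dimension two, a compact set `K` in it and a point `ζ` of
the nucleus of `K` which is not in the core of `K`. -/
theorem result : ∃ (M : Type) (_ : TopologicalSpace M) (_ : ChartedSpace (ℂ × ℂ) M),
    T2Space M ∧ SecondCountableTopology M ∧ IsManifold 𝓘(ℂ, ℂ × ℂ) ω M ∧
    ∃ K : Set M, IsCompact K ∧ nucleus (ℂ × ℂ) 1 K = K ∧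
      ∃ ζ ∈ nucleus (ℂ × ℂ) 1 K, ζ ∉ core (ℂ × ℂ) K := by
  refine ⟨MM, inferInstance, inferInstance, inferInstance, inferInstance, inferInstance, KK,
    isCompact_KK, nucleus_KK, origin, ?_, ?_⟩
  · rw [nucleus_KK]
    exact Or.inr ⟨rfl, by change ‖(0 : ℂ)‖ ≤ 1; simp⟩
  · rintro ⟨_, hno⟩
    apply hno
    obtain ⟨C1, C2, hC1, hC2⟩ := exists_bounds
    have hC20 : 0 ≤ C2 := le_trans (norm_nonneg (fderiv ℝ (fderiv ℝ psi) 0)) (hC2 0)
    have hpos : 0 < C1 ^ 2 + C2 + 1 := by positivity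
    refine ⟨NN, phi (1 / (C1 ^ 2 + C2 + 1)), isOpen_NN, KK_subset, fun q hq => ?_,
      strict (by positivity)⟩
    apply psh hC1 hC2 (by positivity) _ hq
    rw [one_div, inv_mul_le_iff₀ hpos]
    linarith

end Pool.Agent.Results.MP_60ed70_an.NucleusNotCore
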